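import Pool.Agent.H.MP_07734d_lc.B

namespace Pool.Agent.Results.MP_07734d_lc.Yes

open Set Filter Topology

/-- The filter seen as a subset of the Cantor space (characteristic functions). -/
def code (F : Filter ℕ) : Set (ℕ → Bool) := {x | {n | x n = true} ∈ F}

/-- The Boolean algebra made of the filter and its dual ideal. -/
def alg (F : Filter ℕ) : Set (Set ℕ) := {S | S ∈ F ∨ Sᶜ ∈ F}

/-- Finite additivity of `μ` on the algebra `A`. -/
def Additive (A : Set (Set ℕ)) (μ : Set ℕ → ℝ) : Prop :=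
  ∀ S ∈ A, ∀ T ∈ A, Disjoint S T → μ (S ∪ T) = μ S + μ T

/-- The total variation of `μ` on `A` is at most `C`. -/
def VarLe (A : Set (Set ℕ)) (μ : Set ℕ → ℝ) (C : ℝ) : Prop :=
  ∀ s : Finset (Set ℕ), (∀ S ∈ s, S ∈ A) → (s : Set (Set ℕ)).PairwiseDisjoint id →
    ∑ S ∈ s, |μ S| ≤ C

/-- The Nikodym property of the algebra `A`. -/
def Nikodym (A : Set (Set ℕ)) : Prop :=
  ∀ μ : ℕ → Set ℕ → ℝ, (∀ n, Additive A (μ n)) → (∀ n, ∃ C, VarLe A (μ n) C) →
    (∀ S ∈ A, ∃ C, ∀ n, |μ n S| ≤ C) → ∃ C, ∀ n, VarLe A (μ n) C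

open H.MP_07734d_lc in
theorem result :
    ∃ F : Filter ℕ, (∀ S : Set ℕ, Sᶜ.Finite → S ∈ F) ∧ (∀ S : Set ℕ, S.Finite → S ∉ F) ∧
      @MeasurableSet _ (borel (ℕ → Bool)) (code F) ∧
      (¬ ∃ C : ℕ → ℕ → Set (ℕ → Bool), (∀ k m, IsClosed (C k m)) ∧ code F = ⋂ k, ⋃ m, C k m) ∧
      Nikodym (alg F) := by
  have hfin : ∀ S : Set ℕ, S.Finite → S ∈ H.MP_07734d_lc.Id := fun S hS => Id_fin (finite_empty.subset
    fun p hp => hp (hS.subset fun x hx => hx.1))
  have huniv : univ ∉ H.MP_07734d_lc.Id := not_Id fun m => ⟨m + 1, Nat.lt_succ_self m, fun i _ =>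
    infinite_of_forall_exists_gt fun l => ⟨Nat.pair (Nat.pair (m + 1) i) (l + 1),
      ⟨mem_univ _, by simp⟩, Nat.right_le_pair _ _⟩⟩
  let F : Filter ℕ :=
    { sets := {S | Sᶜ ∈ H.MP_07734d_lc.Id}
      univ_sets := hfin _ (by simp)
      sets_of_superset := fun h1 h2 => Id_mono (compl_subset_compl.2 h2) h1
      inter_sets := fun h1 h2 => by
        simp only [mem_setOf_eq, compl_inter]
        exact Id_union h1 h2 }
  have hF : ∀ S, S ∈ F ↔ Sᶜ ∈ H.MP_07734d_lc.Id := fun S => Iff.rfl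
  have hc : code F = {x : ℕ → Bool | {y | x y = false} ∈ H.MP_07734d_lc.Id} := by
    ext x
    simp only [code, mem_setOf_eq, hF, compl_setOf, Bool.not_eq_true]
  refine ⟨F, fun S hS => hfin _ hS, fun S hS h => huniv ?_, ?_, ?_, ?_⟩
  · simpa using Id_union (hfin S hS) h
  · rw [hc, ← BorelSpace.measurable_eq]
    exact meas
  · rintro ⟨C, h1, h2⟩
    exact lev2 h1 (hc ▸ h2)
  · intro μ ha hb hp
    have hI : ∀ S ∈ H.MP_07734d_lc.Id, S ∈ alg F := fun S hS => Or.inr (by rwa [hF, compl_compl])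
    obtain ⟨C, hC⟩ := unif μ (fun k S hS T hT => ha k S (hI S hS) T (hI T hT))
      (fun k => (hb k).imp fun C hC S hS => by
        simpa using hC {S} (by simpa using hI S hS) (by simp))
      (fun S hS => hp S (hI S hS))
    obtain ⟨D, hD⟩ := hp univ (Or.inl univ_mem)
    refine ⟨2 * (C + D), fun n s h1 h2 => var_le (μ n) (alg F) (hI _ (hfin _ finite_empty)) ?_
      (ha n) ?_ id s h1 h2⟩
    · rintro S (hS | hS) T hT
      · exact Or.inl (mem_of_superset hS subset_union_left)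
      · rcases hT with hT | hT
        · exact Or.inl (mem_of_superset hT subset_union_right)
        · exact Or.inr (compl_union S T ▸ inter_mem hS hT)
    · intro S hS
      have h3 := abs_le.1 (hD n)
      rcases hS with hS | hS
      · have h4 := ha n S (Or.inl hS) Sᶜ (hI _ hS) disjoint_compl_right
        rw [union_compl_self] at h4
        have h5 := abs_le.1 (hC n _ hS)
        rw [abs_le]
        constructor <;> linarith [h3.1, h3.2, h5.1, h5.2]
      · rw [hF, compl_compl] at hS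
        linarith [hC n S hS, h3.1, h3.2]

end Pool.Agent.Results.MP_07734d_lc.Yes
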